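import Pool.Agent.Q30.AM.Fin

/-!
# The constant `AMZA` of the derived subgroup can be larger

`AMZA G` (`Q30.AM.AMZA`, file `Pool/Agent/Q30/AM/Def.lean`) is the amenability constant of the
central Fourier algebra of the finite group `G`, by the formula of Alaghmandan and Spronk.
The group is the semidirect product of the plane over the field with five elements by `SL(2,3)`,
of order 600; its derived subgroup, the semidirect product of the plane by the quaternion group,
has order 200.

Upper bound for the group: `AMZA` is the norm, in the central projective tensor product, of the
function `[x⁻¹ ~ y]`, which is written as a combination of ten products of characters and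
differences of characters with nonnegative coefficients.  Lower bound for the derived subgroup: the
function is restricted to the subgroup of translations, and tested on the characters of the plane
with signs given by the orbits of the quaternion group.
-/

set_option autoImplicit false

namespace Pool.Agent.Results.MP_3464eb_al.DerivedSubgroup

open Q30.AM

/-- There is a finite group (of order 600) whose derived subgroup has a larger constant `AMZA`. -/
theorem result : ∃ (G : Type) (_ : Group G) (_ : Fintype G) (_ : Fintype ↥(commutator G)),
    Nat.card G = 600 ∧ Nat.card ↥(commutator G) = 200 ∧
      AMZA G ≤ 79 / 8 ∧ 6673 / 625 ≤ AMZA ↥(commutator G) ∧ AMZA G < AMZA ↥(commutator G) := by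
  have : Fintype ↥(commutator GG) := Fintype.ofFinite _
  have h1 := AMZA_GG
  have h2 := AMZA_K
  exact ⟨GG, _, _, _, card_GG, card_K, h1, h2,
    lt_of_le_of_lt h1 (lt_of_lt_of_le (by norm_num) h2)⟩

end Pool.Agent.Results.MP_3464eb_al.DerivedSubgroup
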